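import Pool.Agent.H32.SZ.Def

set_option autoImplicit false

/-!
# [H32 SX DEF] The requirements for the parameter (larger radii)
-/

namespace Pool.Agent.H32.SX

open MeasureTheory Set
open scoped Real
open Pool.Agent.H62.SS

/-- the requirements at the radius `R` for the parameter `lam` (with `a = 4`, `b = 3`) -/
structure Par3 (N : ℕ) (R lam : ℝ) : Prop where
  lam0 : 0 ≤ lam
  lam1 : lam < 1
  PPp : ∀ σ : ℝ, 0 ≤ σ → σ ≤ 1 → 0 < PP N lam 4 3 σ (Real.tan R ^ 2) (BS N R)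
  MMp : ∀ r : ℝ, 0 < r → r < R →
    0 < MM N lam (Real.tan r / Real.tan R) (Real.tan R ^ 2) (BS N R) (BS N r)
  kap : 0 ≤ N * (1 + Real.tan R ^ 2) - BS N R ^ 2 - N * lam
  far1 : (BS N R ^ 2 + N * (13 / 6 * Real.tan R ^ 2 + 49 / 36) + N) * Real.tan R ^ 2 / (N - 1) +
    1 / 5 ≤ 2 * (N * (1 - lam) - BS N R ^ 2)
  far2 : lam * Real.tan R * Real.sin R ^ N * (N + 1) < 1 / 5 * (1 - Real.sin R ^ (N + 1))

end Pool.Agent.H32.SX
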