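import Pool.Agent.H62.SS.Poly

set_option autoImplicit false

/-!
# [H32 SX EEX] Certificates for the comparison with the ball of radius `R₀`, `tan² R₀ = q₀(N)`
-/

namespace Pool.Agent.H32.SX

open Pool.Agent.H62.SS

noncomputable def EE (N lam q B y : ℝ) : ℝ :=
  N * (49 / 36) * (q + y ^ 2) -
    (49 / 36) * (B - (B - lam) / (49 / 36) * ((1 - y ^ 2) / (1 + q))) ^ 2 -
    N * y * ((49 / 36) * B - (B - lam))

def e2t0 : List (List ℤ) :=
  [[19786415600, -115231200, -144400], [-44151744000, -110656000, 0], [56142238040, -103708080, -129960], [0, 0, 0], [-4655196441, -23334318, -29241]]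

theorem e2c0 : chk2 e2t0 = true := by decide +kernel

theorem e2e0 (x s : ℝ) :
    112896000000 * (EE 2 0 (1/7) ((1083/1000) + s * ((38/35) - (1083/1000))) (0 + (1/2) * x) - 1 / 100) =
      ev2 e2t0 x s := by
  simp only [e2t0, ev2, ev1, evg, EE]
  push_cast
  ring

def e2t1 : List (List ℤ) :=
  [[27121713199, -352929598, -303601], [49511946316, -411409432, -376884], [28211059394, -243713988, -305406], [-18620785764, -93337272, -116964], [-4655196441, -23334318, -29241]]

theorem e2c1 : chk2 e2t1 = true := by decide +kernel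

theorem e2e1 (x s : ℝ) :
    112896000000 * (EE 2 0 (1/7) ((1083/1000) + s * ((38/35) - (1083/1000))) ((1/2) + (1/2) * x) - 1 / 100) =
      ev2 e2t1 x s := by
  simp only [e2t1, ev2, ev1, evg, EE]
  push_cast
  ring

theorem EE_2 {B y : ℝ} (hy : 0 ≤ y) (hy1 : y ≤ 1) (hL : (1083/1000) ≤ B) (hU : B ≤ (38/35)) :
    0 < EE 2 0 (1/7) B y := by
  obtain ⟨s, hs, hs1, rfl⟩ := exists_param hL hU (by norm_num)
  rcases le_total y (1/2) with hc | hc
  · have h := chk2_sound (q := (y - 0) / (1/2)) (by linarith) (by linarith) hs hs1 _ e2c0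
    rw [← e2e0] at h
    have e : (0 + (1/2) * ((y - 0) / (1/2))) = y := by ring
    rw [e] at h
    linarith
  · have h := chk2_sound (q := (y - (1/2)) / (1/2)) (by linarith) (by linarith) hs hs1 _ e2c1
    rw [← e2e1] at h
    have e : ((1/2) + (1/2) * ((y - (1/2)) / (1/2))) = y := by ring
    rw [e] at h
    linarith

def e3t0 : List (List ℤ) :=
  [[114865934076, -1611718152, -8305924], [-258377931000, -2253069000, 0], [441976983732, -3436096464, -20387268], [0, 0, 0], [-63990279369, -1789460262, -12510369]]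

theorem e3c0 : chk2 e3t0 = true := by decide +kernel

theorem e3e0 (x s : ℝ) :
    142884000000 * (EE 3 (1/6) (1/3) ((3623/3000) + s * ((11/9) - (3623/3000))) (0 + 1 * x) - 1 / 100) =
      ev2 e3t0 x s := by
  simp only [e3t0, ev2, ev1, evg, EE]
  push_cast
  ring

theorem EE_3 {B y : ℝ} (hy : 0 ≤ y) (hy1 : y ≤ 1) (hL : (3623/3000) ≤ B) (hU : B ≤ (11/9)) :
    0 < EE 3 (1/6) (1/3) B y := by
  obtain ⟨s, hs, hs1, rfl⟩ := exists_param hL hU (by norm_num)
  have h := chk2_sound (q := (y - 0) / 1) (by linarith) (by linarith) hs hs1 _ e3c0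
  rw [← e3e0] at h
  have e : (0 + 1 * ((y - 0) / 1)) = y := by ring
  rw [e] at h
  linarith

def e4t0 : List (List ℤ) :=
  [[42064019375, -701006250, -7425625], [-54353838000, -972062000, 0], [92236816000, -1211338800, -14257200], [0, 0, 0], [-9758278656, -516837888, -6843456]]

theorem e4c0 : chk2 e4t0 = true := by decide +kernel

theorem e4e0 (x s : ℝ) :
    21609000000 * (EE 4 (3/20) (1/2) ((663/500) + s * ((19/14) - (663/500))) (0 + 1 * x) - 1 / 100) =
      ev2 e4t0 x s := by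
  simp only [e4t0, ev2, ev1, evg, EE]
  push_cast
  ring

theorem EE_4 {B y : ℝ} (hy : 0 ≤ y) (hy1 : y ≤ 1) (hL : (663/500) ≤ B) (hU : B ≤ (19/14)) :
    0 < EE 4 (3/20) (1/2) B y := by
  obtain ⟨s, hs, hs1, rfl⟩ := exists_param hL hU (by norm_num)
  have h := chk2_sound (q := (y - 0) / 1) (by linarith) (by linarith) hs hs1 _ e4c0
  rw [← e4e0] at h
  have e : (0 + 1 * ((y - 0) / 1)) = y := by ring
  rw [e] at h
  linarith

def e5t0 : List (List ℤ) :=
  [[135994372199, -2391498648, -32764176], [-156116450000, -3439800000, 0], [243402111470, -3584755440, -55637280], [0, 0, 0], [-18432135225, -1319635800, -23619600]]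

theorem e5c0 : chk2 e5t0 = true := by decide +kernel

theorem e5e0 (x s : ℝ) :
    44100000000 * (EE 5 (1/5) (3/5) ((3517/2500) + s * ((29/20) - (3517/2500))) (0 + 1 * x) - 1 / 100) =
      ev2 e5t0 x s := by
  simp only [e5t0, ev2, ev1, evg, EE]
  push_cast
  ring

theorem EE_5 {B y : ℝ} (hy : 0 ≤ y) (hy1 : y ≤ 1) (hL : (3517/2500) ≤ B) (hU : B ≤ (29/20)) :
    0 < EE 5 (1/5) (3/5) B y := by
  obtain ⟨s, hs, hs1, rfl⟩ := exists_param hL hU (by norm_num)
  have h := chk2_sound (q := (y - 0) / 1) (by linarith) (by linarith) hs hs1 _ e5c0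
  rw [← e5e0] at h
  have e : (0 + 1 * ((y - 0) / 1)) = y := by ring
  rw [e] at h
  linarith

def e6t0 : List (List ℤ) :=
  [[8503418851731, -145230352542, -2182478089], [-9646009537500, -219932212500, 0], [13694353392708, -196087997556, -3440987352], [0, 0, 0], [-762726248964, -64326878352, -1356301584]]

theorem e6c0 : chk2 e6t0 = true := by decide +kernel

theorem e6e0 (x s : ℝ) :
    2009306250000 * (EE 6 (27/100) (2/3) ((367/250) + s * ((41/27) - (367/250))) (0 + 1 * x) - 1 / 100) =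
      ev2 e6t0 x s := by
  simp only [e6t0, ev2, ev1, evg, EE]
  push_cast
  ring

theorem EE_6 {B y : ℝ} (hy : 0 ≤ y) (hy1 : y ≤ 1) (hL : (367/250) ≤ B) (hU : B ≤ (41/27)) :
    0 < EE 6 (27/100) (2/3) B y := by
  obtain ⟨s, hs, hs1, rfl⟩ := exists_param hL hU (by norm_num)
  have h := chk2_sound (q := (y - 0) / 1) (by linarith) (by linarith) hs hs1 _ e6c0
  rw [← e6e0] at h
  have e : (0 + 1 * ((y - 0) / 1)) = y := by ring
  rw [e] at h
  linarith

def e7t0 : List (List ℤ) :=
  [[7849209347111, -137438621262, -2338399449], [-8672479228000, -212373252000, 0], [11213410676512, -166260009024, -3384216288], [0, 0, 0], [-477160429824, -48342707712, -1224440064]]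

theorem e7c0 : chk2 e7t0 = true := by decide +kernel

theorem e7e0 (x s : ℝ) :
    1382976000000 * (EE 7 (17/50) (3/4) ((6157/4000) + s * ((8/5) - (6157/4000))) (0 + 1 * x) - 1 / 100) =
      ev2 e7t0 x s := by
  simp only [e7t0, ev2, ev1, evg, EE]
  push_cast
  ring

theorem EE_7 {B y : ℝ} (hy : 0 ≤ y) (hy1 : y ≤ 1) (hL : (6157/4000) ≤ B) (hU : B ≤ (8/5)) :
    0 < EE 7 (17/50) (3/4) B y := by
  obtain ⟨s, hs, hs1, rfl⟩ := exists_param hL hU (by norm_num)
  have h := chk2_sound (q := (y - 0) / 1) (by linarith) (by linarith) hs hs1 _ e7c0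
  rw [← e7e0] at h
  have e : (0 + 1 * ((y - 0) / 1)) = y := by ring
  rw [e] at h
  linarith

def e8t0 : List (List ℤ) :=
  [[2760288822599, -41458613658, -659000241], [-3218043012800, -70865995200, 0], [3964435051808, -48786446016, -953728992], [0, 0, 0], [-133885737216, -13594065408, -345067776]]

theorem e8c0 : chk2 e8t0 = true := by decide +kernel

theorem e8e0 (x s : ℝ) :
    418350240000 * (EE 8 (2/5) (3/4) ((311/200) + s * ((71/44) - (311/200))) (0 + 1 * x) - 1 / 100) =
      ev2 e8t0 x s := by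
  simp only [e8t0, ev2, ev1, evg, EE]
  push_cast
  ring

theorem EE_8 {B y : ℝ} (hy : 0 ≤ y) (hy1 : y ≤ 1) (hL : (311/200) ≤ B) (hU : B ≤ (71/44)) :
    0 < EE 8 (2/5) (3/4) B y := by
  obtain ⟨s, hs, hs1, rfl⟩ := exists_param hL hU (by norm_num)
  have h := chk2_sound (q := (y - 0) / 1) (by linarith) (by linarith) hs hs1 _ e8c0
  rw [← e8e0] at h
  have e : (0 + 1 * ((y - 0) / 1)) = y := by ring
  rw [e] at h
  linarith

def e9t0 : List (List ℤ) :=
  [[2600405591951, -34033759682, -505665169], [-3193853418000, -63487242000, 0], [3752186621472, -38985303744, -731816928], [0, 0, 0], [-101919285504, -10389606912, -264777984]]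

theorem e9c0 : chk2 e9t0 = true := by decide +kernel

theorem e9e0 (x s : ℝ) :
    345744000000 * (EE 9 (23/50) (3/4) ((3137/2000) + s * ((13/8) - (3137/2000))) (0 + 1 * x) - 1 / 100) =
      ev2 e9t0 x s := by
  simp only [e9t0, ev2, ev1, evg, EE]
  push_cast
  ring

theorem EE_9 {B y : ℝ} (hy : 0 ≤ y) (hy1 : y ≤ 1) (hL : (3137/2000) ≤ B) (hU : B ≤ (13/8)) :
    0 < EE 9 (23/50) (3/4) B y := by
  obtain ⟨s, hs, hs1, rfl⟩ := exists_param hL hU (by norm_num)
  have h := chk2_sound (q := (y - 0) / 1) (by linarith) (by linarith) hs hs1 _ e9c0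
  rw [← e9e0] at h
  have e : (0 + 1 * ((y - 0) / 1)) = y := by ring
  rw [e] at h
  linarith

def e10t0 : List (List ℤ) :=
  [[494149622859191, -5648549102742, -78396080049], [-631482063940000, -11418339660000, 0], [714451241194912, -6331789324224, -113457643488], [0, 0, 0], [-16063679234304, -1624086277632, -41050001664]]

theorem e10c0 : chk2 e10t0 = true := by decide +kernel

theorem e10e0 (x s : ℝ) :
    58430736000000 * (EE 10 (51/100) (3/4) ((3161/2000) + s * ((85/52) - (3161/2000))) (0 + 1 * x) - 1 / 100) =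
      ev2 e10t0 x s := by
  simp only [e10t0, ev2, ev1, evg, EE]
  push_cast
  ring

theorem EE_10 {B y : ℝ} (hy : 0 ≤ y) (hy1 : y ≤ 1) (hL : (3161/2000) ≤ B) (hU : B ≤ (85/52)) :
    0 < EE 10 (51/100) (3/4) B y := by
  obtain ⟨s, hs, hs1, rfl⟩ := exists_param hL hU (by norm_num)
  have h := chk2_sound (q := (y - 0) / 1) (by linarith) (by linarith) hs hs1 _ e10c0
  rw [← e10e0] at h
  have e : (0 + 1 * ((y - 0) / 1)) = y := by ring
  rw [e] at h
  linarith

def e11t0 : List (List ℤ) :=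
  [[39840681150431, -400288766262, -5218184169], [-52390629137000, -872434563000, 0], [57598142471072, -441256806144, -7551944928], [0, 0, 0], [-1101089251584, -109700946432, -2732361984]]

theorem e11c0 : chk2 e11t0 = true := by decide +kernel

theorem e11e0 (x s : ℝ) :
    4235364000000 * (EE 11 (11/20) (3/4) ((1591/1000) + s * ((23/14) - (1591/1000))) (0 + 1 * x) - 1 / 100) =
      ev2 e11t0 x s := by
  simp only [e11t0, ev2, ev1, evg, EE]
  push_cast
  ring

theorem EE_11 {B y : ℝ} (hy : 0 ≤ y) (hy1 : y ≤ 1) (hL : (1591/1000) ≤ B) (hU : B ≤ (23/14)) :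
    0 < EE 11 (11/20) (3/4) B y := by
  obtain ⟨s, hs, hs1, rfl⟩ := exists_param hL hU (by norm_num)
  have h := chk2_sound (q := (y - 0) / 1) (by linarith) (by linarith) hs hs1 _ e11c0
  rw [← e11e0] at h
  have e : (0 + 1 * ((y - 0) / 1)) = y := by ring
  rw [e] at h
  linarith

def e12t0 : List (List ℤ) :=
  [[8952773504, -80268640, -990025], [-12112564800, -187278000, 0], [12944586432, -87026400, -1432800], [0, 0, 0], [-211527936, -20943360, -518400]]

theorem e12c0 : chk2 e12t0 = true := by decide +kernel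

theorem e12e0 (x s : ℝ) :
    864360000 * (EE 12 (59/100) (3/4) ((8/5) + s * ((33/20) - (8/5))) (0 + 1 * x) - 1 / 100) =
      ev2 e12t0 x s := by
  simp only [e12t0, ev2, ev1, evg, EE]
  push_cast
  ring

theorem EE_12 {B y : ℝ} (hy : 0 ≤ y) (hy1 : y ≤ 1) (hL : (8/5) ≤ B) (hU : B ≤ (33/20)) :
    0 < EE 12 (59/100) (3/4) B y := by
  obtain ⟨s, hs, hs1, rfl⟩ := exists_param hL hU (by norm_num)
  have h := chk2_sound (q := (y - 0) / 1) (by linarith) (by linarith) hs hs1 _ e12c0
  rw [← e12e0] at h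
  have e : (0 + 1 * ((y - 0) / 1)) = y := by ring
  rw [e] at h
  linarith

def e13t0 : List (List ℤ) :=
  [[15658705519631, -125114923392, -1459851264], [-21588034468000, -311630592000, 0], [22606999692832, -134033854464, -2112749568], [0, 0, 0], [-324025069824, -31476252672, -764411904]]

theorem e13c0 : chk2 e13t0 = true := by decide +kernel

theorem e13e0 (x s : ℝ) :
    1382976000000 * (EE 13 (31/50) (3/4) ((6433/4000) + s * ((53/32) - (6433/4000))) (0 + 1 * x) - 1 / 100) =
      ev2 e13t0 x s := by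
  simp only [e13t0, ev2, ev1, evg, EE]
  push_cast
  ring

theorem EE_13 {B y : ℝ} (hy : 0 ≤ y) (hy1 : y ≤ 1) (hL : (6433/4000) ≤ B) (hU : B ≤ (53/32)) :
    0 < EE 13 (31/50) (3/4) B y := by
  obtain ⟨s, hs, hs1, rfl⟩ := exists_param hL hU (by norm_num)
  have h := chk2_sound (q := (y - 0) / 1) (by linarith) (by linarith) hs hs1 _ e13c0
  rw [← e13e0] at h
  have e : (0 + 1 * ((y - 0) / 1)) = y := by ring
  rw [e] at h
  linarith

theorem EE_big {N B y : ℝ} (hN : 14 ≤ N) (hy : 0 ≤ y) (hy1 : y ≤ 1) (hB : 1 ≤ B) (hB1 : B ≤ 7 / 4) :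
    0 < EE N (1 - 5 / N) (3 / 4) B y := by
  have h5 : 5 / N ≤ 5 / 14 := by gcongr
  have h5' : 0 < 5 / N := by positivity
  unfold EE
  obtain ⟨l, hl⟩ : ∃ l : ℝ, l = 1 - 5 / N := ⟨_, rfl⟩
  rw [← hl]
  have hl0 : 0 ≤ l := by linarith
  have hl1 : l ≤ 1 := by linarith
  obtain ⟨w, hw⟩ : ∃ w : ℝ, w = (B - l) / (49 / 36) * ((1 - y ^ 2) / (1 + 3 / 4)) := ⟨_, rfl⟩
  rw [← hw]
  have hy2 : 0 ≤ 1 - y ^ 2 := by nlinarith
  have hw0 : 0 ≤ w := by
    rw [hw]
    have : 0 ≤ B - l := by linarith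
    positivity
  have hw1 : w ≤ B := by
    rw [hw]
    have h6 : (1 - y ^ 2) / (1 + 3 / 4) ≤ 1 := by
      rw [div_le_one (by norm_num)]
      nlinarith
    have h7 : (B - l) / (49 / 36) ≤ B := by
      rw [div_le_iff₀ (by norm_num)]
      linarith
    have h8 : 0 ≤ (B - l) / (49 / 36) := by
      have : 0 ≤ B - l := by linarith
      positivity
    calc (B - l) / (49 / 36) * ((1 - y ^ 2) / (1 + 3 / 4)) ≤ (B - l) / (49 / 36) * 1 := by gcongr
      _ ≤ B := by linarith
  have h9 : (B - w) ^ 2 ≤ 49 / 16 := by nlinarith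
  have h10 : N * y * ((49 / 36) * B - (B - l)) ≤ N * y * (79 / 48) := by
    have : (49 / 36) * B - (B - l) ≤ 79 / 48 := by linarith
    have hNy : 0 ≤ N * y := by positivity
    exact mul_le_mul_of_nonneg_left this hNy
  have h11 : 14 * (49 / 36 * (3 / 4 + y ^ 2) - 79 / 48 * y) ≤
      N * (49 / 36 * (3 / 4 + y ^ 2) - 79 / 48 * y) := by
    refine mul_le_mul_of_nonneg_right hN ?_
    nlinarith [sq_nonneg (y - 3 / 5)]
  have h12 : 49 / 36 * (49 / 16) < 14 * (49 / 36 * (3 / 4 + y ^ 2) - 79 / 48 * y) := by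
    nlinarith [sq_nonneg (y - 3 / 5)]
  have e1 : N * (49 / 36) * (3 / 4 + y ^ 2) - N * y * (79 / 48) =
      N * (49 / 36 * (3 / 4 + y ^ 2) - 79 / 48 * y) := by ring
  nlinarith

end Pool.Agent.H32.SX
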