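import Pool.Agent.H62.SZ.CaseZ
import Pool.Agent.H32.SX.Lt
import Pool.Agent.H32.SX.KN

set_option autoImplicit false

/-!
# [H32 SX FINAL] The Weinstock inequality for all convex domains of small volume, small perimeter, or thin
-/

namespace Pool.Agent.H32.SX

open scoped RealInnerProductSpace MeasureTheory ENNReal NNReal
open MeasureTheory Set Metric
open Pool.Agent.H62.WS (E sg cst)
open Pool.Agent.H62.SS
open Pool.Agent.H62.SZ
open Pool.Agent.H32.SV (Hd Weinstock convex_cn_of_hemi)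
open Pool.Agent.H32.SZ (Prof2 sin_sq_tan)

variable {n : ℕ}

/-- volume at most that of the ball of radius `R₀ < R`, `tan² R₀ = qM (n-1)` -/
theorem case_largeZ (hn : 3 ≤ n) {Ω : Set (Sp n)} (h : Hd Ω) {R₀ : ℝ} (hR₀ : 0 < R₀)
    (hR₀' : R₀ < Real.pi / 2) (hq : Real.tan R₀ ^ 2 = qM (n - 1))
    (hV : sg (n + 1) Ω ≤ sg (n + 1) (gball (nor n) R₀))
    {R : ℝ} (h0 : R₀ < R)
    (h1 : R < Real.pi / 2) (hR : bs n (frontier Ω) = bs n (gsph (nor n) R)) :
    sigma1 Ω < gS (n - 1) R / (cst n).toReal := by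
  have hn2 : 2 ≤ n := by omega
  have hN : 2 ≤ n - 1 := by omega
  have hpi := Real.pi_pos
  have hR0 : 0 < R := by linarith
  obtain ⟨M, hM, hM', hdiam⟩ := exists_diam h
  obtain ⟨m, κ, r₀, H, P, hFX, hR2⟩ := exists_prof_at hN hR₀ hR₀' hq hM hM'
  obtain ⟨X, hXe⟩ : ∃ X : ℝ, X = 49 / 36 := ⟨_, rfl⟩
  rw [← hXe] at hFX hR2
  have hX : 0 < X := by rw [hXe]; norm_num
  have hgR := hR2 R ⟨h0, h1⟩
  obtain ⟨q, hqΩ, hint'⟩ := exists_center_all hn2 h P.contDiff P.pos
  obtain ⟨Φ, hΦ⟩ := exists_act q (nor n)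
  have hoΦ : nor n ∈ act Φ '' Ω := ⟨q, hqΩ, hΦ⟩
  have hint : ∀ i : Fin n, ∫ p in frontier (act Φ '' Ω), uH H i (p : E (n + 1)) ∂bs n = 0 :=
    Pool.Agent.H62.SY.move_int hint' hΦ
  have hd : Dm M (act Φ '' Ω) := dm_move h hM hM' (fun x hx => hdiam q (subset_closure hqΩ) x hx) hΦ
  set W : Set (Sp n) := act Φ '' Ω with hW
  have hbs : bs n (frontier W) = bs n (gsph (nor n) R) := by
    rw [hW, ← act_frontier, bs_act_image, hR]
  have hc := cst_toReal_pos hn2
  have hA := bs_toReal_of_eq hn2 hR0 (by linarith) hbs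
  have hvol : (sg (n + 1) W).toReal ≤ VS (n - 1) R₀ * (sg n univ).toReal := by
    rw [← sg_gball_toReal hn2 (nor n) (by linarith) (by linarith)]
    exact ENNReal.toReal_mono (measure_ne_top _ _) (by rw [hW, sg_act_image]; exact hV)
  have hfin : bs n (frontier W) < ∞ := bs_frontier_lt_top hn2 hd
  have hup := sigma1_mul_le hn2 hfin P.contDiff hint
  have hst := star hn2 hd hoΦ P
  have hI := integral_Fp_pos2 hn2 hd.hd hoΦ P.contDiff P.pos
  have hκ : 0 ≤ κ * (VS (n - 1) R₀ * (sg n univ).toReal - (sg (n + 1) W).toReal) :=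
    mul_nonneg P.kap_nonneg (by linarith)
  have hsig : sigma1 W = sigma1 Ω := sigma1_act Φ Ω
  rw [hsig] at hup
  set I := ∫ p in frontier W, Fp H (rad p) ^ 2 ∂bs n with hIdef
  set c := (cst n).toReal with hcdef
  set ω := (sg n univ).toReal with hωdef
  set A := (bs n (frontier W)).toReal with hAdef
  have hsR : 0 < Real.sin R := Real.sin_pos_of_pos_of_lt_pi hR0 (by linarith)
  have hIX : I ≤ X * A := by
    have hfin' : IsFiniteMeasure ((bs n).restrict (frontier W)) := ⟨by simpa using hfin⟩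
    have h2 : I ≤ ∫ _p in frontier W, X ∂bs n := by
      refine setIntegral_mono_on ?_ ?_ isClosed_frontier.measurableSet ?_
      · refine Integrable.of_bound (C := X)
          (((continuous_Fp P.contDiff).comp continuous_rad).pow 2).aestronglyMeasurable ?_
        rw [ae_restrict_iff' isClosed_frontier.measurableSet]
        refine Filter.Eventually.of_forall fun p hp => ?_
        rw [Real.norm_eq_abs, abs_of_nonneg (sq_nonneg _)]
        exact hFX _ ⟨rad_nonneg p, hd.rad _ (frontier_subset_closure hp)⟩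
      · exact integrable_const _
      · intro p hp
        exact hFX _ ⟨rad_nonneg p, hd.rad _ (frontier_subset_closure hp)⟩
    rw [setIntegral_const, smul_eq_mul] at h2
    have h3 : (bs n).real (frontier W) = A := rfl
    rw [h3] at h2
    linarith
  -- the quantity `δ = 1 - (s₁/s_R)^N`
  set δ := 1 - (Real.sin R₀ / Real.sin R) ^ (n - 1) with hδ
  have hs1 : 0 < Real.sin R₀ := Real.sin_pos_of_pos_of_lt_pi (by linarith) (by linarith)
  have hs1R : Real.sin R₀ < Real.sin R :=
    Real.sin_lt_sin_of_lt_of_le_pi_div_two (by linarith) h1.le h0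
  have hδ0 : 0 ≤ δ := by
    have : (Real.sin R₀ / Real.sin R) ^ (n - 1) ≤ 1 :=
      pow_le_one₀ (by positivity) (by rw [div_le_one hsR]; exact hs1R.le)
    linarith
  have e1 : A / c - Real.sin R₀ ^ (n - 1) * ω = A / c * δ := by
    rw [hδ, hA, div_pow]
    field_simp
  rw [e1] at hst
  have hAI : I / X ≤ A := by
    rw [div_le_iff₀ hX]
    linarith
  have h2 : m * (I / X / c * δ) ≤ m * (A / c * δ) := by
    have := P.m_pos
    gcongr
  have h3 : sigma1 Ω * I ≤ (gS (n - 1) R₀ - m * δ / X) / c * I := by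
    have e2 : (gS (n - 1) R₀ - m * δ / X) / c * I =
        gS (n - 1) R₀ * I / c - m * (I / X / c * δ) := by
      field_simp
    rw [e2]
    linarith
  have h4 : sigma1 Ω ≤ (gS (n - 1) R₀ - m * δ / X) / c :=
    le_of_mul_le_mul_right h3 hI
  refine h4.trans_lt ?_
  have h5 : gS (n - 1) R₀ - m * δ / X < gS (n - 1) R := by
    have h6 : gS (n - 1) R₀ - gS (n - 1) R < m * δ / X := by
      rw [lt_div_iff₀ hX]
      exact hgR
    linarith
  gcongr

theorem sN_spec (hn : 3 ≤ n) {R : ℝ} (h0 : 0 < R) (h1 : R < Real.pi / 2)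
    (h : Real.sin R ^ 2 ≤ sN n) : Real.tan R ^ 2 ≤ qM (n - 1) := by
  have h2 := sin_sq_tan h0 h1
  have hT : 0 ≤ Real.tan R ^ 2 := sq_nonneg _
  have key : ∀ s : ℝ, s < 1 → Real.sin R ^ 2 ≤ s → Real.tan R ^ 2 ≤ s / (1 - s) := by
    intro s hs hss
    rw [le_div_iff₀ (by linarith)]
    have h3 : Real.tan R ^ 2 * (1 - Real.sin R ^ 2) = Real.sin R ^ 2 := by linarith
    have h4 : Real.tan R ^ 2 * (1 - s) ≤ Real.tan R ^ 2 * (1 - Real.sin R ^ 2) :=
      mul_le_mul_of_nonneg_left (by linarith) hT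
    linarith
  unfold sN at h
  unfold qM
  split_ifs at h with h3 h4 h5 h6 h7
  · have : n - 1 = 2 := by omega
    rw [if_pos this]
    exact (key _ (by norm_num) h).trans (by norm_num)
  · have : n - 1 = 3 := by omega
    rw [if_neg (by omega), if_pos this]
    exact (key _ (by norm_num) h).trans (by norm_num)
  · have : n - 1 = 4 := by omega
    rw [if_neg (by omega), if_neg (by omega), if_pos this]
    exact (key _ (by norm_num) h).trans (by norm_num)
  · have : n - 1 = 5 := by omega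
    rw [if_neg (by omega), if_neg (by omega), if_neg (by omega), if_pos this]
    exact (key _ (by norm_num) h).trans (by norm_num)
  · have : n - 1 = 6 := by omega
    rw [if_neg (by omega), if_neg (by omega), if_neg (by omega), if_neg (by omega), if_pos this]
    exact (key _ (by norm_num) h).trans (by norm_num)
  · rw [if_neg (by omega), if_neg (by omega), if_neg (by omega), if_neg (by omega),
      if_neg (by omega)]
    exact (key _ (by norm_num) h).trans (by norm_num)

/-- the Weinstock inequality for convex domains of small volume or small perimeter -/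
theorem weinstock_ball (hn : 3 ≤ n) {Ω : Set (Sp n)} (hΩ : IsOpen Ω) (hne : Ω.Nonempty)
    (hc : GConvex Ω)
    (hw : ∃ w : Sp n, ∀ p ∈ closure Ω, 0 < ⟪(w : E (n + 1)), (p : E (n + 1))⟫)
    (hs : Small Ω) : Weinstock Ω := by
  have hn2 : 2 ≤ n := by omega
  have hn1 : 1 ≤ n := by omega
  have hpi := Real.pi_pos
  obtain ⟨w, hw⟩ := hw
  have hpole : ∃ w : E (n + 1), ∀ x ∈ closure Ω, 0 < ⟪(x : E (n + 1)), w⟫ :=
    ⟨w, fun x hx => by rw [real_inner_comm]; exact hw x hx⟩
  have h : Hd Ω := ⟨hΩ, hne, convex_cn_of_hemi hc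
    (hpole.imp fun _ h1 x hx => h1 x (subset_closure hx)), hpole⟩
  obtain ⟨p, S, hS0, hS1, hkS, hs⟩ := hs
  have hST : Real.tan S ^ 2 ≤ qM (n - 1) := sN_spec hn hS0 hS1 hkS
  obtain ⟨R, hR0, hR1, hR⟩ := h.radius hn2
  -- the radius `R₀` with `tan² R₀ = qM (n-1)`
  obtain ⟨R₀, hR₀e⟩ : ∃ R₀ : ℝ, R₀ = Real.arctan (Real.sqrt (qM (n - 1))) := ⟨_, rfl⟩
  have hqp := qM_pos (n - 1)
  have hR₀ : 0 < R₀ := by
    rw [hR₀e]
    exact Real.arctan_pos.2 (Real.sqrt_pos.2 hqp)
  have hR₀' : R₀ < Real.pi / 2 := by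
    rw [hR₀e]
    exact Real.arctan_lt_pi_div_two _
  have hq : Real.tan R₀ ^ 2 = qM (n - 1) := by
    rw [hR₀e, Real.tan_arctan, Real.sq_sqrt hqp.le]
  have hmono : ∀ r : ℝ, 0 < r → r < Real.pi / 2 → Real.tan r ^ 2 ≤ qM (n - 1) → r ≤ R₀ := by
    intro r hr hr1 h2
    by_contra hcon
    push Not at hcon
    have h3 : Real.tan R₀ < Real.tan r :=
      Real.tan_lt_tan_of_nonneg_of_lt_pi_div_two hR₀.le hr1 hcon
    have h4 := tan_pos1 hR₀ hR₀'
    rw [← hq] at h2
    nlinarith
  rcases le_or_gt R R₀ with h4 | h4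
  · have hqR : Real.tan R ^ 2 ≤ qM (n - 1) := by
      rw [← hq]
      have h5 := tan_pos1 hR0 hR1
      have h6 : Real.tan R ≤ Real.tan R₀ := by
        rcases h4.eq_or_lt with h7 | h7
        · rw [h7]
        · exact (Real.tan_lt_tan_of_nonneg_of_lt_pi_div_two hR0.le hR₀' h7).le
      gcongr
    obtain ⟨h5, h6⟩ := case_all hn h hR0 hR1
      (fun M hM hM' => exists_prof3 (by omega) hR0 hR1 hqR hM hM') (hR (nor n)).symm
    exact Pool.Agent.H62.SY.finish hn h hw hR0 hR1 hR h5 h6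
  · have hSR : S ≤ R₀ := hmono S hS0 hS1 hST
    have hV : sg (n + 1) Ω ≤ sg (n + 1) (gball (nor n) R₀) := by
      rcases hs with hs | hs
      · refine hs.trans ?_
        rw [sg_gball hn2 p hS0.le (by linarith), ← sg_gball hn2 (nor n) hS0.le (by linarith)]
        refine measure_mono fun x hx => ?_
        exact (Real.cos_le_cos_of_nonneg_of_le_pi hS0.le (by linarith) hSR).trans_lt hx
      · exfalso
        rw [frontier_gball hn1 p hS0 (by linarith), ← hR p] at hs
        exact absurd (bs_gsph_strictMono hn2 p p hS0 (lt_of_le_of_lt hSR h4) hR1.le) (not_lt.2 hs)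
    have h5 := case_largeZ hn h hR₀ hR₀' hq hV h4 hR1 (hR (nor n)).symm
    exact Pool.Agent.H62.SY.finish hn h hw hR0 hR1 hR h5.le (fun h6 => absurd h5 (not_lt.2 h6))

/-- the Weinstock inequality for convex domains of small volume, of small perimeter, or thin -/
theorem weinstock_small_or_thin (hn : 3 ≤ n) {Ω : Set (Sp n)} (hΩ : IsOpen Ω) (hne : Ω.Nonempty)
    (hc : GConvex Ω)
    (hw : ∃ w : Sp n, ∀ p ∈ closure Ω, 0 < ⟪(w : E (n + 1)), (p : E (n + 1))⟫)
    (hs : Small Ω ∨ Thin Ω) : Weinstock Ω := by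
  have hpi := Real.pi_pos
  rcases hs with hs | ⟨p, hs⟩
  · exact weinstock_ball hn hΩ hne hc hw hs
  · refine Pool.Agent.H32.SV.main_thin hn hΩ hne hc hw ?_
    rwa [frontier_gball (by omega) _ (by positivity) (by linarith),
      bs_gsph (by omega) _ (by positivity) (by linarith),
      ← bs_gsph (by omega) (nor n) (by positivity) (by linarith),
      ← frontier_gball (by omega) (nor n) (by positivity) (by linarith)] at hs

end Pool.Agent.H32.SX
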