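import Pool.Agent.H32.SX.Def
import Pool.Agent.H32.SX.PPx
import Pool.Agent.H32.SZ.Par2

set_option autoImplicit false

/-!
# [H32 SX PAR] The parameters with `a = 4`, `b = 3` (larger radii)
-/

namespace Pool.Agent.H32.SX

open MeasureTheory Set
open scoped Real
open Pool.Agent.H62.SS
open Pool.Agent.H32.SZ (sin_sq_tan)

/-- the bound for `tan² R` -/
noncomputable def qM (N : ℕ) : ℝ := if N = 2 then 1 / 7 else if N = 3 then 1 / 3 else
  if N = 4 then 1 / 2 else if N = 5 then 3 / 5 else if N = 6 then 2 / 3 else 3 / 4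

theorem qM_le (N : ℕ) : qM N ≤ 3 / 4 := by
  unfold qM
  split_ifs <;> norm_num

theorem qM_pos (N : ℕ) : 0 < qM N := by
  unfold qM
  split_ifs <;> norm_num

theorem le_quarter {N : ℕ} {R : ℝ} (h1 : R < π / 2) (hq : Real.tan R ^ 2 ≤ qM N) : R ≤ π / 4 := by
  by_contra h
  push Not at h
  have hpi := Real.pi_pos
  have h2 : Real.tan (π / 4) < Real.tan R :=
    Real.tan_lt_tan_of_lt_of_lt_pi_div_two (by linarith) h1 h
  rw [Real.tan_pi_div_four] at h2
  have h3 := qM_le N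
  nlinarith

theorem far1_of {N : ℕ} (hN : 2 ≤ N) {lam q q0 B U : ℝ} (hq : 0 ≤ q) (hq0 : q ≤ q0) (hB0 : 0 ≤ B)
    (hB : B ≤ 1 + ((N : ℝ) + 1) / (N + 3) * q) (hU : 1 + ((N : ℝ) + 1) / (N + 3) * q0 = U)
    (h : (U ^ 2 + N * (13 / 6 * q0 + 49 / 36) + N) * q0 / (N - 1) + 1 / 5 ≤
      2 * (N * (1 - lam) - U ^ 2)) :
    (B ^ 2 + N * (13 / 6 * q + 49 / 36) + N) * q / (N - 1) + 1 / 5 ≤
      2 * (N * (1 - lam) - B ^ 2) := by
  have hN2 : (2 : ℝ) ≤ N := by exact_mod_cast hN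
  have hN1 : (0 : ℝ) < N - 1 := by linarith
  have hBU : B ≤ U := by
    rw [← hU]
    refine hB.trans ?_
    have : 0 ≤ ((N : ℝ) + 1) / (N + 3) := by positivity
    nlinarith [mul_le_mul_of_nonneg_left hq0 this]
  have hB2 : B ^ 2 ≤ U ^ 2 := by gcongr
  have hq00 : 0 ≤ q0 := hq.trans hq0
  have h2 : (B ^ 2 + N * (13 / 6 * q + 49 / 36) + N) * q / (N - 1) ≤
      (U ^ 2 + N * (13 / 6 * q0 + 49 / 36) + N) * q0 / (N - 1) := by gcongr
  linarith

theorem far2_of {N : ℕ} {lam R q0 s0 : ℝ} (h0 : 0 < R) (h1 : R < π / 2) (hl : 0 ≤ lam)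
    (hq0 : Real.tan R ^ 2 ≤ q0) (hq1 : q0 ≤ 3 / 4) (hs0 : 0 ≤ s0) (hs : q0 ≤ s0 ^ 2 * (1 + q0))
    (h : lam * (7 / 8) * s0 ^ N * (N + 1) < 1 / 5 * (1 - s0 ^ (N + 1))) :
    lam * Real.tan R * Real.sin R ^ N * (N + 1) < 1 / 5 * (1 - Real.sin R ^ (N + 1)) := by
  have hT := tan_pos1 h0 h1
  have hS := sin_pos1 h0 h1
  have hT2 : Real.tan R ≤ 7 / 8 := by nlinarith
  have hS2 : Real.sin R ≤ s0 := by
    have h2 := sin_sq_tan h0 h1
    have hq : 0 ≤ q0 := (sq_nonneg _).trans hq0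
    have h3 : Real.sin R ^ 2 ≤ s0 ^ 2 := by
      have h4 : Real.sin R ^ 2 * (1 + q0) ≤ q0 := by
        have h5 : Real.sin R ^ 2 ≤ 1 := by
          have := Real.sin_sq_add_cos_sq R
          nlinarith [sq_nonneg (Real.cos R)]
        nlinarith [mul_nonneg (sub_nonneg.2 h5) (sub_nonneg.2 hq0)]
      have h5 : Real.sin R ^ 2 * (1 + q0) ≤ s0 ^ 2 * (1 + q0) := h4.trans hs
      exact le_of_mul_le_mul_right h5 (by linarith)
    exact (sq_le_sq₀ hS.le hs0).1 h3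
  have h2 : lam * Real.tan R * Real.sin R ^ N * (N + 1) ≤ lam * (7 / 8) * s0 ^ N * (N + 1) := by
    gcongr
  have h3 : Real.sin R ^ (N + 1) ≤ s0 ^ (N + 1) := by gcongr
  linarith

theorem mk3 {N : ℕ} (hN : 2 ≤ N) {R : ℝ} (h0 : 0 < R) (h4 : R ≤ π / 4) {lam a b l q0 s0 U : ℝ}
    (P : Par N lam a b) (hq : Real.tan R ^ 2 ≤ q0) (hq0 : q0 ≤ 3 / 4)
    (hl0 : 0 ≤ l) (hl : l * (((N : ℝ) + 3) * (N + 5) + 2 * (N + 2) * q0) ≤ (N + 1) * (N + 5))
    (hPP : ∀ σ q B : ℝ, 0 ≤ σ → σ ≤ 1 → 0 < q → q ≤ q0 → 1 + l * q ≤ B →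
      B ≤ 1 + ((N : ℝ) + 1) / (N + 3) * q → 0 < PP N lam 4 3 σ q B)
    (hU : 1 + ((N : ℝ) + 1) / (N + 3) * q0 = U)
    (hf1 : (U ^ 2 + N * (13 / 6 * q0 + 49 / 36) + N) * q0 / (N - 1) + 1 / 5 ≤
      2 * (N * (1 - lam) - U ^ 2))
    (hs0 : 0 ≤ s0) (hs : q0 ≤ s0 ^ 2 * (1 + q0))
    (hf2 : lam * (7 / 8) * s0 ^ N * (N + 1) < 1 / 5 * (1 - s0 ^ (N + 1))) : Par3 N R lam := by
  have hpi := Real.pi_pos
  have h1 : R < π / 2 := by linarith
  have hN0 : (0 : ℝ) ≤ N := Nat.cast_nonneg N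
  have hT0 := (tan_sq_mem h0 h4).1
  have hB1 := BS_ge_one N h0 h1
  have hup : BS N R ≤ 1 + ((N : ℝ) + 1) / (N + 3) * Real.tan R ^ 2 := by
    have h2 := BS_le_up1 N h0 h1
    unfold up1 at h2
    refine h2.trans (le_of_eq ?_)
    ring
  have hlo : 1 + l * Real.tan R ^ 2 ≤ BS N R := by
    refine le_trans ?_ (lo2_le_BS N h0 h1)
    unfold lo2
    have hD : 0 < ((N : ℝ) + 3) * (N + 5) + 2 * (N + 2) * Real.tan R ^ 2 := by positivity
    have h2 : l * Real.tan R ^ 2 ≤ ((N : ℝ) + 1) * (N + 5) * Real.tan R ^ 2 /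
        (((N : ℝ) + 3) * (N + 5) + 2 * (N + 2) * Real.tan R ^ 2) := by
      rw [le_div_iff₀ hD]
      have h3 : l * (((N : ℝ) + 3) * (N + 5) + 2 * (N + 2) * Real.tan R ^ 2) ≤
          (N + 1) * (N + 5) := by
        refine le_trans (mul_le_mul_of_nonneg_left ?_ hl0) hl
        have : (0 : ℝ) ≤ 2 * (N + 2) := by positivity
        nlinarith [mul_le_mul_of_nonneg_left hq this]
      nlinarith [mul_le_mul_of_nonneg_left h3 hT0.le]
    linarith
  exact ⟨P.lam0, P.lam1, fun σ hσ hσ1 => hPP σ _ _ hσ hσ1 hT0 hq hlo hup,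
    fun r hr hrR => P.MMp R h4 r hr hrR, P.kap R h0 h4,
    far1_of hN hT0.le hq (by linarith) hup hU hf1,
    far2_of h0 h1 P.lam0 hq hq0 hs0 hs hf2⟩

theorem pow_small : ∀ N : ℕ, 14 ≤ N → ((N : ℝ) + 1) * (2 / 3) ^ N ≤ 1 / 10 := by
  intro N hN
  induction N, hN using Nat.le_induction with
  | base => norm_num
  | succ k hk ih =>
    have hk' : (14 : ℝ) ≤ k := by exact_mod_cast hk
    have hp : (0 : ℝ) < (2 / 3) ^ k := by positivity
    push_cast
    rw [pow_succ]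
    nlinarith

theorem par3_big {N : ℕ} (hN : 14 ≤ N) {R : ℝ} (h0 : 0 < R) (h4 : R ≤ π / 4)
    (hq : Real.tan R ^ 2 ≤ 3 / 4) : Par3 N R (1 - 5 / N) := by
  have hpi := Real.pi_pos
  have h1 : R < π / 2 := by linarith
  have hN14 : (14 : ℝ) ≤ N := by exact_mod_cast hN
  have hN0 : (0 : ℝ) < N := by linarith
  have P := par_big hN
  have hT0 := (tan_sq_mem h0 h4).1
  have hB1 := BS_ge_one N h0 h1
  have e5 : (N : ℝ) * (1 - (1 - 5 / N)) = 5 := by field_simp; ring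
  have hup : BS N R ≤ 1 + Real.tan R ^ 2 := by
    have h2 := BS_le_up1 N h0 h1
    unfold up1 at h2
    refine h2.trans ?_
    have : ((N : ℝ) + 1) * Real.tan R ^ 2 / (N + 3) ≤ Real.tan R ^ 2 := by
      rw [div_le_iff₀ (by linarith)]
      nlinarith
    linarith
  have hB2 : BS N R ^ 2 ≤ 49 / 16 := by nlinarith
  refine ⟨P.lam0, P.lam1, fun σ hσ hσ1 => P.PPp R h0 h4 σ hσ hσ1,
    fun r hr hrR => P.MMp R h4 r hr hrR, P.kap R h0 h4, ?_, ?_⟩
  · rw [e5]
    have hN1 : (0 : ℝ) < N - 1 := by linarith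
    have h2 : (BS N R ^ 2 + N * (13 / 6 * Real.tan R ^ 2 + 49 / 36) + N) * Real.tan R ^ 2 /
        (N - 1) ≤
        (49 / 16 + N * (13 / 6 * (3 / 4) + 49 / 36) + N) * (3 / 4) / (N - 1) := by gcongr
    have h3 : (49 / 16 + (N : ℝ) * (13 / 6 * (3 / 4) + 49 / 36) + N) * (3 / 4) / (N - 1) ≤
        7 / 2 := by
      rw [div_le_iff₀ hN1]
      nlinarith
    linarith
  · refine far2_of (s0 := 2 / 3) h0 h1 P.lam0 hq le_rfl (by norm_num) (by norm_num) ?_
    have h2 := pow_small N hN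
    have hp : (0 : ℝ) < (2 / 3) ^ N := by positivity
    have h3 : (2 / 3 : ℝ) ^ N ≤ 1 / 10 := by nlinarith
    have h4 : (1 - 5 / (N : ℝ)) * (7 / 8) ≤ 1 := by
      have := P.lam1
      linarith
    have h5 : (1 - 5 / (N : ℝ)) * (7 / 8) * (2 / 3) ^ N * (N + 1) ≤ 1 * ((N + 1) * (2 / 3) ^ N) := by
      have : (1 - 5 / (N : ℝ)) * (7 / 8) * (2 / 3) ^ N * (N + 1) =
          (1 - 5 / (N : ℝ)) * (7 / 8) * ((N + 1) * (2 / 3) ^ N) := by ring
      rw [this]
      exact mul_le_mul_of_nonneg_right h4 (by positivity)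
    rw [pow_succ]
    nlinarith

theorem exists_par3 {N : ℕ} (hN : 2 ≤ N) {R : ℝ} (h0 : 0 < R) (h1 : R < π / 2)
    (hq : Real.tan R ^ 2 ≤ qM N) : ∃ lam : ℝ, Par3 N R lam := by
  have h4 : R ≤ π / 4 := le_quarter h1 hq
  rcases lt_or_ge N 14 with h | h
  · interval_cases N
    · have hq' : Real.tan R ^ 2 ≤ (1/7) := by simpa [qM] using hq
      refine ⟨_, mk3 (l := (581/1000)) (q0 := (1/7)) (s0 := (2/5)) (U := (38/35)) (by norm_num) h0 h4 par_2 hq' (by norm_num)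
        (by norm_num) (by norm_num) (fun σ q B a1 a2 a3 a4 a5 a6 => ?_) (by norm_num) (by norm_num)
        (by norm_num) (by norm_num) (by norm_num)⟩
      rw [Nat.cast_ofNat]
      exact PPx_2 a1 a2 a3 a4 a5 (a6.trans (le_of_eq (by norm_num)))
    · have hq' : Real.tan R ^ 2 ≤ (1/3) := by simpa [qM] using hq
      refine ⟨_, mk3 (l := (623/1000)) (q0 := (1/3)) (s0 := (1/2)) (U := (11/9)) (by norm_num) h0 h4 par_3 hq' (by norm_num)
        (by norm_num) (by norm_num) (fun σ q B a1 a2 a3 a4 a5 a6 => ?_) (by norm_num) (by norm_num)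
        (by norm_num) (by norm_num) (by norm_num)⟩
      rw [Nat.cast_ofNat]
      exact PPx_3 a1 a2 a3 a4 a5 (a6.trans (le_of_eq (by norm_num)))
    · have hq' : Real.tan R ^ 2 ≤ (1/2) := by simpa [qM] using hq
      refine ⟨_, mk3 (l := (163/250)) (q0 := (1/2)) (s0 := (3/5)) (U := (19/14)) (by norm_num) h0 h4 par_4 hq' (by norm_num)
        (by norm_num) (by norm_num) (fun σ q B a1 a2 a3 a4 a5 a6 => ?_) (by norm_num) (by norm_num)
        (by norm_num) (by norm_num) (by norm_num)⟩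
      rw [Nat.cast_ofNat]
      exact PPx_4 a1 a2 a3 a4 a5 (a6.trans (le_of_eq (by norm_num)))
    · have hq' : Real.tan R ^ 2 ≤ (3/5) := by simpa [qM] using hq
      refine ⟨_, mk3 (l := (339/500)) (q0 := (3/5)) (s0 := (5/8)) (U := (29/20)) (by norm_num) h0 h4 par_5 hq' (by norm_num)
        (by norm_num) (by norm_num) (fun σ q B a1 a2 a3 a4 a5 a6 => ?_) (by norm_num) (by norm_num)
        (by norm_num) (by norm_num) (by norm_num)⟩
      rw [Nat.cast_ofNat]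
      exact PPx_5 a1 a2 a3 a4 a5 (a6.trans (le_of_eq (by norm_num)))
    · have hq' : Real.tan R ^ 2 ≤ (2/3) := by simpa [qM] using hq
      refine ⟨_, mk3 (l := (351/500)) (q0 := (2/3)) (s0 := (13/20)) (U := (41/27)) (by norm_num) h0 h4 par_6 hq' (by norm_num)
        (by norm_num) (by norm_num) (fun σ q B a1 a2 a3 a4 a5 a6 => ?_) (by norm_num) (by norm_num)
        (by norm_num) (by norm_num) (by norm_num)⟩
      rw [Nat.cast_ofNat]
      exact PPx_6 a1 a2 a3 a4 a5 (a6.trans (le_of_eq (by norm_num)))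
    · have hq' : Real.tan R ^ 2 ≤ (3/4) := by simpa [qM] using hq
      refine ⟨_, mk3 (l := (719/1000)) (q0 := (3/4)) (s0 := (2/3)) (U := (8/5)) (by norm_num) h0 h4 par_7 hq' (by norm_num)
        (by norm_num) (by norm_num) (fun σ q B a1 a2 a3 a4 a5 a6 => ?_) (by norm_num) (by norm_num)
        (by norm_num) (by norm_num) (by norm_num)⟩
      rw [Nat.cast_ofNat]
      exact PPx_7 a1 a2 a3 a4 a5 (a6.trans (le_of_eq (by norm_num)))
    · have hq' : Real.tan R ^ 2 ≤ (3/4) := by simpa [qM] using hq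
      refine ⟨_, mk3 (l := (37/50)) (q0 := (3/4)) (s0 := (2/3)) (U := (71/44)) (by norm_num) h0 h4 par_8 hq' (by norm_num)
        (by norm_num) (by norm_num) (fun σ q B a1 a2 a3 a4 a5 a6 => ?_) (by norm_num) (by norm_num)
        (by norm_num) (by norm_num) (by norm_num)⟩
      rw [Nat.cast_ofNat]
      exact PPx_8 a1 a2 a3 a4 a5 (a6.trans (le_of_eq (by norm_num)))
    · have hq' : Real.tan R ^ 2 ≤ (3/4) := by simpa [qM] using hq
      refine ⟨_, mk3 (l := (379/500)) (q0 := (3/4)) (s0 := (2/3)) (U := (13/8)) (by norm_num) h0 h4 par_9 hq' (by norm_num)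
        (by norm_num) (by norm_num) (fun σ q B a1 a2 a3 a4 a5 a6 => ?_) (by norm_num) (by norm_num)
        (by norm_num) (by norm_num) (by norm_num)⟩
      rw [Nat.cast_ofNat]
      exact PPx_9 a1 a2 a3 a4 a5 (a6.trans (le_of_eq (by norm_num)))
    · have hq' : Real.tan R ^ 2 ≤ (3/4) := by simpa [qM] using hq
      refine ⟨_, mk3 (l := (387/500)) (q0 := (3/4)) (s0 := (2/3)) (U := (85/52)) (by norm_num) h0 h4 par_10 hq' (by norm_num)
        (by norm_num) (by norm_num) (fun σ q B a1 a2 a3 a4 a5 a6 => ?_) (by norm_num) (by norm_num)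
        (by norm_num) (by norm_num) (by norm_num)⟩
      rw [Nat.cast_ofNat]
      exact PPx_10 a1 a2 a3 a4 a5 (a6.trans (le_of_eq (by norm_num)))
    · have hq' : Real.tan R ^ 2 ≤ (3/4) := by simpa [qM] using hq
      refine ⟨_, mk3 (l := (197/250)) (q0 := (3/4)) (s0 := (2/3)) (U := (23/14)) (by norm_num) h0 h4 par_11 hq' (by norm_num)
        (by norm_num) (by norm_num) (fun σ q B a1 a2 a3 a4 a5 a6 => ?_) (by norm_num) (by norm_num)
        (by norm_num) (by norm_num) (by norm_num)⟩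
      rw [Nat.cast_ofNat]
      exact PPx_11 a1 a2 a3 a4 a5 (a6.trans (le_of_eq (by norm_num)))
    · have hq' : Real.tan R ^ 2 ≤ (3/4) := by simpa [qM] using hq
      refine ⟨_, mk3 (l := (4/5)) (q0 := (3/4)) (s0 := (2/3)) (U := (33/20)) (by norm_num) h0 h4 par_12 hq' (by norm_num)
        (by norm_num) (by norm_num) (fun σ q B a1 a2 a3 a4 a5 a6 => ?_) (by norm_num) (by norm_num)
        (by norm_num) (by norm_num) (by norm_num)⟩
      rw [Nat.cast_ofNat]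
      exact PPx_12 a1 a2 a3 a4 a5 (a6.trans (le_of_eq (by norm_num)))
    · have hq' : Real.tan R ^ 2 ≤ (3/4) := by simpa [qM] using hq
      refine ⟨_, mk3 (l := (811/1000)) (q0 := (3/4)) (s0 := (2/3)) (U := (53/32)) (by norm_num) h0 h4 par_13 hq' (by norm_num)
        (by norm_num) (by norm_num) (fun σ q B a1 a2 a3 a4 a5 a6 => ?_) (by norm_num) (by norm_num)
        (by norm_num) (by norm_num) (by norm_num)⟩
      rw [Nat.cast_ofNat]
      exact PPx_13 a1 a2 a3 a4 a5 (a6.trans (le_of_eq (by norm_num)))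
  · have hq' : Real.tan R ^ 2 ≤ 3 / 4 := hq.trans (qM_le N)
    exact ⟨_, par3_big h h0 h4 hq'⟩

end Pool.Agent.H32.SX
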