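import Pool.Agent.H32.SX.Par
import Pool.Agent.H32.SX.Far
import Pool.Agent.H32.SZ.Hx

set_option autoImplicit false

/-!
# [H32 SX PROF] The comparison profile beyond the equator (larger radii)
-/

namespace Pool.Agent.H32.SX

open MeasureTheory Set Filter
open scoped Real
open Pool.Agent.H62.SS
open Pool.Agent.H32.SZ (Prof2 exists_H2)

theorem prof2_of_par3 {N : ℕ} (hN : 2 ≤ N) {R : ℝ} (h0 : 0 < R) (h1 : R ≤ π / 4) {lam : ℝ}
    (P : Par3 N R lam) {M : ℝ} (hM : π / 2 < M) (hM' : M < π) :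
    ∃ (κ r₀ : ℝ) (H : ℝ → ℝ), Prof2 N R (gS N R) (gS N R - lam / Real.tan R) κ r₀ M H ∧
      (∀ r ∈ Icc 0 R, Fp H r = fS N r / fS N R) ∧
      (∀ r ∈ Icc R (π / 2), Fp H r = Gf (BS N R / (1 + Real.tan R ^ 2)) (Real.tan R) 4 3
        (Real.cos r / Real.sin r)) ∧
      (∀ r ∈ Icc (π / 2) M, Fp H r = 1) := by
  have hpi := Real.pi_pos
  have hR2 : R < π / 2 := by linarith
  have hN0 : (0 : ℝ) < N := by exact_mod_cast (by omega : 0 < N)
  set T := Real.tan R with hT
  have hT0 : 0 < T := tan_pos1 h0 hR2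
  have hsR := sin_pos1 h0 hR2
  have hcR := cos_pos1 h0.le hR2
  set B := BS N R with hB
  have hB1 : 1 ≤ B := BS_ge_one N h0 hR2
  have hγB : gS N R = B / T := by
    rw [hB, BS, mul_div_assoc, div_self hT0.ne', mul_one]
  have hγ0 : 0 < gS N R := gS_pos' N h0 hR2
  set β := B / (1 + T ^ 2) with hβ
  have hβ0 : 0 ≤ β := by positivity
  have hm : β * Real.tan R / Real.sin R ^ 2 = gS N R := by
    rw [hγB, ← hT, div_eq_mul_one_div, inv_sin_sq h0 hR2, ← hT, hβ]
    field_simp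
  obtain ⟨H, hH, hHpos, hin, hout, hone⟩ := exists_H2 (by omega : 1 ≤ N) h0 hR2 hβ0 hm hM hM'
  have hfR : 0 < fS N R := fS_pos N h0 (by linarith)
  -- the derivative of the profile
  have hin' : ∀ r ∈ Ioc 0 R, Fp' H r = gS N r * fS N r / fS N R := by
    intro r hr
    have h2 : HasDerivWithinAt (Fp H) (Fp' H r) (Icc 0 R) r :=
      (hasDerivAt_Fp0 hH r).hasDerivWithinAt
    have h3 : HasDerivWithinAt (Fp H) (gS N r * fS N r / fS N R) (Icc 0 R) r := by
      refine (((hasDerivAt_fS N hr.1 (by linarith [hr.2])).div_const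
        (fS N R)).hasDerivWithinAt).congr (fun x hx => hin x hx) (hin r ⟨hr.1.le, hr.2⟩)
    exact (uniqueDiffOn_Icc h0 r ⟨hr.1.le, hr.2⟩).eq_deriv _ h2 h3
  have hout' : ∀ r ∈ Icc R (π / 2), Fp' H r = β * T *
      (1 - 4 * (1 - T * (Real.cos r / Real.sin r)) +
        3 * (1 - T * (Real.cos r / Real.sin r)) ^ 2) * (1 / Real.sin r ^ 2) := by
    intro r hr
    have hs : Real.sin r ≠ 0 :=
      (Real.sin_pos_of_pos_of_lt_pi (by linarith [hr.1]) (by linarith [hr.2])).ne'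
    have h2 : HasDerivWithinAt (Fp H) (Fp' H r) (Icc R (π / 2)) r :=
      (hasDerivAt_Fp0 hH r).hasDerivWithinAt
    have h3 : HasDerivWithinAt (Fp H) (-(β * T *
      (1 - 4 * (1 - T * (Real.cos r / Real.sin r)) +
        3 * (1 - T * (Real.cos r / Real.sin r)) ^ 2)) * -(1 / Real.sin r ^ 2))
        (Icc R (π / 2)) r := by
      have h4 := HasDerivAt.comp (h₂ := Gf β T 4 3) r
        (hasDerivAt_Gf β T 4 3 (Real.cos r / Real.sin r)) (hasDerivAt_cot hs)
      exact h4.hasDerivWithinAt.congr (fun x hx => hout x hx) (hout r hr)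
    have h5 := (uniqueDiffOn_Icc hR2 r hr).eq_deriv _ h2 h3
    rw [h5]
    ring
  -- values
  have hF0 : Fp H 0 = 0 := by simp [Fp]
  have hFR : Fp H R = 1 := by
    rw [hin R ⟨h0.le, le_rfl⟩, div_self hfR.ne']
  have hF'R : Fp' H R = gS N R := by
    rw [hin' R ⟨h0, le_rfl⟩, mul_div_cancel_right₀ _ hfR.ne']
  have hFpos : ∀ r ∈ Ioc 0 R, 0 < Fp H r := fun r hr => by
    rw [hin r ⟨hr.1.le, hr.2⟩]
    exact div_pos (fS_pos N hr.1 (by linarith [hr.2])) hfR
  have hF'pos : ∀ r ∈ Ioc 0 R, 0 < Fp' H r := fun r hr => by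
    rw [hin' r hr]
    exact div_pos (mul_pos (gS_pos' N hr.1 (by linarith [hr.2]))
      (fS_pos N hr.1 (by linarith [hr.2]))) hfR
  have hFmono : StrictMonoOn (Fp H) (Icc 0 R) := by
    refine strictMonoOn_of_deriv_pos (convex_Icc _ _) (continuous_Fp0 hH).continuousOn
      fun x hx => ?_
    rw [interior_Icc] at hx
    rw [(hasDerivAt_Fp0 hH x).deriv]
    exact hF'pos x ⟨hx.1, hx.2.le⟩
  have hFout : ∀ r ∈ Icc R (π / 2), 1 ≤ Fp H r := by
    intro r hr
    rw [hout r hr]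
    refine one_le_Gf hβ0 (by norm_num) ?_
    have hs : 0 < Real.sin r := Real.sin_pos_of_pos_of_lt_pi (by linarith [hr.1]) (by linarith [hr.2])
    have h6 : Real.cos r / Real.sin r ≤ Real.cos R / Real.sin R := by
      have h7 : Real.cos r ≤ Real.cos R :=
        Real.cos_le_cos_of_nonneg_of_le_pi h0.le (by linarith [hr.2]) hr.1
      have h8 : Real.sin R ≤ Real.sin r :=
        Real.sin_le_sin_of_le_of_le_pi_div_two (by linarith) hr.2 hr.1
      have h9 : 0 ≤ Real.cos R := hcR.le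
      gcongr
    rw [cot_eq h0 hR2, ← hT] at h6
    have : T * (Real.cos r / Real.sin r) ≤ T * (1 / T) := by gcongr
    rw [mul_one_div_cancel hT0.ne'] at this
    linarith
  set m := gS N R - lam / T with hmdef
  have hm0 : 0 < m := by
    rw [hmdef, hγB, ← sub_div]
    exact div_pos (by linarith [P.lam1]) hT0
  have hmγ : m ≤ gS N R := by
    have : 0 ≤ lam / T := div_nonneg P.lam0 hT0.le
    linarith
  -- the radius `r₀`
  obtain ⟨r₀, hr₀, hr₀m⟩ : ∃ r₀ ∈ Icc 0 R, gS N R * Fp H r₀ ^ 2 = m := by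
    have hc : ContinuousOn (fun r => gS N R * Fp H r ^ 2) (Icc 0 R) :=
      (continuous_const.mul ((continuous_Fp0 hH).pow 2)).continuousOn
    have := intermediate_value_Icc h0.le hc
    have h2 : m ∈ Icc (gS N R * Fp H 0 ^ 2) (gS N R * Fp H R ^ 2) := by
      rw [hF0, hFR]
      constructor
      · simp only [ne_eq, OfNat.ofNat_ne_zero, not_false_eq_true, zero_pow, mul_zero]
        exact hm0.le
      · linarith
    obtain ⟨r, hr, hrm⟩ := this h2
    exact ⟨r, hr, hrm⟩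
  have hr₀0 : 0 < r₀ := by
    rcases hr₀.1.eq_or_lt with h | h
    · rw [← h, hF0] at hr₀m
      simp at hr₀m
      linarith
    · exact h
  have hge : ∀ t ∈ Icc r₀ R, m ≤ gS N R * Fp H t ^ 2 := by
    intro t ht
    rw [← hr₀m]
    have h2 := hFmono.monotoneOn hr₀ ⟨hr₀0.le.trans ht.1, ht.2⟩ ht.1
    have h3 := (hFpos r₀ ⟨hr₀0, hr₀.2⟩).le
    gcongr
  set κ := (N * (1 + T ^ 2) - B ^ 2 - N * lam) / T ^ 2 with hκ
  have hκ0 : 0 ≤ κ := div_nonneg (P.kap) (by positivity)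
  -- the three signs
  have s1 : ∀ r, 0 < r → r < R → 2 * gS N R * Fp H r * Fp' H r - hp N H r + κ < 0 := by
    intro r hr hrR
    have hr2 : r < π / 2 := by linarith
    have hs := sin_pos1 hr hr2
    have hτ := tan_pos1 hr hr2
    have hb := BS_ge_one N hr hr2
    have hNb : (0 : ℝ) < N + BS N r := by linarith
    have h2 := D1_neg (N := (N : ℝ)) hT0 hτ hNb (P.MMp r hr hrR)
    have e1 : Fp H r = Real.tan r * (N + B) / (T * (N + BS N r)) := by
      rw [hin r ⟨hr.le, hrR.le⟩, fS_eq N hr hr2, fS_eq N h0 hR2, ← hT, ← hB]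
      field_simp
    have e2 : Fp' H r = BS N r / Real.tan r * (Real.tan r * (N + B) / (T * (N + BS N r))) := by
      rw [← e1, hin' r ⟨hr, hrR.le⟩, hin r ⟨hr.le, hrR.le⟩, BS]
      field_simp
    rw [hp_eq N H hs.ne', e2, e1, inv_sin_sq hr hr2, hγB]
    exact h2
  have s2 : ∀ r, r₀ < r → r < R → 2 * gS N R * Fp H r * Fp' H r +
      N * (Real.cos r / Real.sin r) * (gS N R * Fp H r ^ 2 - m) - hp N H r + κ < 0 := by
    intro r hr hrR
    have hr0 : 0 < r := hr₀0.trans hr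
    have hr2 : r < π / 2 := by linarith
    have hs := sin_pos1 hr0 hr2
    have hτ := tan_pos1 hr0 hr2
    have hτT : Real.tan r < T :=
      Real.tan_lt_tan_of_lt_of_lt_pi_div_two (by linarith) hR2 hrR
    have hF1 : Fp H r ≤ 1 := by
      rw [← hFR]
      exact hFmono.monotoneOn ⟨hr0.le, hrR.le⟩ ⟨h0.le, le_rfl⟩ hrR.le
    have hF2 : B - lam ≤ B * Fp H r ^ 2 := by
      have h3 := hge r ⟨hr.le, hrR.le⟩
      rw [hmdef, hγB, ← sub_div, div_mul_eq_mul_div] at h3
      exact (div_le_div_iff_of_pos_right hT0).1 h3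
    have h2 := D_neg (N := (N : ℝ)) (b := BS N r) hN0 hT0 hτ hτT hB1 P.lam1
      (hFpos r ⟨hr0, hrR.le⟩).le hF1 hF2
      (ghat hN0.le (tan_sq_mem h0 h1).1.le (tan_sq_mem h0 h1).2 (lo2_le_BS N h0 hR2))
    have e2 : Fp' H r = BS N r / Real.tan r * Fp H r := by
      rw [hin' r ⟨hr0, hrR.le⟩, hin r ⟨hr0.le, hrR.le⟩, BS]
      field_simp
    have e3 : m = (B - lam) / T := by
      rw [hmdef, hγB, sub_div]
    rw [hp_eq N H hs.ne', e2, inv_sin_sq hr0 hr2, cot_eq hr0 hr2, e3, hγB]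
    exact h2
  have s3 : ∀ r, R < r → r < π / 2 → 0 < 2 * gS N R * Fp H r * Fp' H r +
      N * (Real.cos r / Real.sin r) * (gS N R * Fp H r ^ 2 - m) - hp N H r + κ := by
    intro r hr hr2
    have hr0 : 0 < r := h0.trans hr
    have hs := sin_pos1 hr0 hr2
    have hτ := tan_pos1 hr0 hr2
    have hτT : T < Real.tan r :=
      Real.tan_lt_tan_of_lt_of_lt_pi_div_two (by linarith) hr2 hr
    set t := 1 - T * (Real.cos r / Real.sin r) with ht
    have hcot : Real.cos r / Real.sin r = (1 - t) / T := by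
      rw [ht]
      field_simp
      ring
    have ht0 : 0 < t := by
      rw [ht, cot_eq hr0 hr2]
      have : T * (1 / Real.tan r) < 1 := by
        rw [mul_one_div, div_lt_one hτ]
        exact hτT
      linarith
    have ht1 : t ≤ 1 := by
      have : 0 ≤ T * (Real.cos r / Real.sin r) :=
        mul_nonneg hT0.le (div_nonneg (cos_pos1 hr0.le hr2).le hs.le)
      linarith
    have h2 := D_pos (N := (N : ℝ)) hT0 ht0 (P.PPp t ht0.le ht1)
    have e1 : Fp H r = 1 + B / (1 + T ^ 2) * (t * (1 - 4 / 2 * t + 3 / 3 * t ^ 2)) := by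
      rw [hout r ⟨hr.le, hr2.le⟩, Gf]
    have einv : 1 / Real.sin r ^ 2 = (T ^ 2 + (1 - t) ^ 2) / T ^ 2 := by
      have h3 : 1 / Real.sin r ^ 2 = 1 + (Real.cos r / Real.sin r) ^ 2 := by
        have := Real.sin_sq_add_cos_sq r
        field_simp
        linarith
      rw [h3, hcot]
      field_simp
    have e2 : Fp' H r = B / (1 + T ^ 2) * T * (1 - 4 * t + 3 * t ^ 2) *
        ((T ^ 2 + (1 - t) ^ 2) / T ^ 2) := by
      rw [hout' r ⟨hr.le, hr2.le⟩, einv]
    have e3 : m = (B - lam) / T := by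
      rw [hmdef, hγB, sub_div]
    rw [hp_eq N H hs.ne', e2, e1, einv, hcot, e3, hγB]
    exact h2
  -- the branches
  set A1 : ℝ → ℝ := fun ρ => (gS N R * Fp H ρ ^ 2 - m) * Real.sin ρ ^ N -
      ∫ t in (0 : ℝ)..ρ, (hp N H t - κ) * Real.sin t ^ N with hA1
  set A2 : ℝ → ℝ := fun ρ => -(∫ t in ρ..r₀, 2 * gS N R * Fp H t * Fp' H t * Real.sin t ^ N) -
      ∫ t in (0 : ℝ)..ρ, (hp N H t - κ) * Real.sin t ^ N with hA2
  have hsin : ∀ r, 0 < r → r ≤ π / 2 → 0 < Real.sin r := fun r hr hr2 =>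
    Real.sin_pos_of_pos_of_lt_pi hr (by linarith)
  have m1 : StrictAntiOn A1 (Icc r₀ R) := by
    refine strictAntiOn_of_deriv_neg (convex_Icc _ _) (fun x hx =>
      (hasDerivAt_A1 N _ _ _ hH (hsin x (hr₀0.trans_le hx.1)
        (by linarith [hx.2])).ne').continuousAt.continuousWithinAt) fun x hx => ?_
    rw [interior_Icc] at hx
    have hx0 : 0 < x := hr₀0.trans hx.1
    rw [(hasDerivAt_A1 N _ _ _ hH (hsin x hx0 (by linarith [hx.2])).ne').deriv]
    exact mul_neg_of_pos_of_neg (pow_pos (hsin x hx0 (by linarith [hx.2])) N) (s2 x hx.1 hx.2)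
  have m2 : StrictMonoOn A1 (Icc R (π / 2)) := by
    refine strictMonoOn_of_deriv_pos (convex_Icc _ _) (fun x hx =>
      (hasDerivAt_A1 N _ _ _ hH (hsin x (h0.trans_le hx.1)
        hx.2).ne').continuousAt.continuousWithinAt) fun x hx => ?_
    rw [interior_Icc] at hx
    have hx0 : 0 < x := h0.trans hx.1
    rw [(hasDerivAt_A1 N _ _ _ hH (hsin x hx0 hx.2.le).ne').deriv]
    exact mul_pos (pow_pos (hsin x hx0 hx.2.le) N) (s3 x hx.1 hx.2)
  have m3 : StrictAntiOn A2 (Icc 0 r₀) := by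
    refine strictAntiOn_of_deriv_neg (convex_Icc _ _) (fun x _ =>
      (hasDerivAt_A2 N _ _ _ hH x).continuousAt.continuousWithinAt) fun x hx => ?_
    rw [interior_Icc] at hx
    rw [(hasDerivAt_A2 N _ _ _ hH x).deriv]
    exact mul_neg_of_pos_of_neg (pow_pos (hsin x hx.1 (by linarith [hx.2, hr₀.2])) N)
      (s1 x hx.1 (hx.2.trans_le hr₀.2))
  have hA12 : A2 r₀ = A1 r₀ := by
    simp only [hA1, hA2]
    rw [intervalIntegral.integral_same, hr₀m]
    ring
  -- the value at `R`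
  have hval : A1 R = -m * Real.sin R ^ N + κ * VS N R := by
    have hch : Continuous fun t : ℝ => hp N H t * Real.sin t ^ N :=
      (continuous_hp0 N hH).mul (Real.continuous_sin.pow N)
    have hck : Continuous fun t : ℝ => κ * Real.sin t ^ N :=
      continuous_const.mul (Real.continuous_sin.pow N)
    have hI : ∫ t in (0 : ℝ)..R, hp N H t * Real.sin t ^ N = gS N R * Real.sin R ^ N := by
      have hcont : ContinuousOn (fun r => Fp H r * Fp' H r * Real.sin r ^ N) (Icc 0 R) :=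
        (((continuous_Fp0 hH).mul (continuous_Fp0' hH)).mul
          (Real.continuous_sin.pow N)).continuousOn
      have hd : ∀ x ∈ Ioo 0 R, HasDerivAt (fun r => Fp H r * Fp' H r * Real.sin r ^ N)
          (hp N H x * Real.sin x ^ N) x := by
        intro x hx
        have hx2 : x < π / 2 := by linarith [hx.2]
        have hs := sin_pos1 hx.1 hx2
        have hd' : HasDerivAt (Fp' H) ((((N : ℝ) / Real.sin x ^ 2 - gS N x ^ 2 -
            N * (Real.cos x / Real.sin x) * gS N x) * fS N x +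
              gS N x * (gS N x * fS N x)) / fS N R) x := by
          refine (((hasDerivAt_gS N hx.1 (by linarith)).fun_mul
            (hasDerivAt_fS N hx.1 (by linarith))).div_const (fS N R)).congr_of_eventuallyEq ?_
          filter_upwards [Ioo_mem_nhds hx.1 hx.2] with y hy using hin' y ⟨hy.1, hy.2.le⟩
        have h2 := ((hasDerivAt_Fp0 hH x).fun_mul hd').fun_mul (hasDerivAt_pow_sin (r := x) N hs.ne')
        refine h2.congr_deriv ?_
        rw [hp_eq N H hs.ne', hin' x ⟨hx.1, hx.2.le⟩, hin x ⟨hx.1.le, hx.2.le⟩]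
        field_simp
        ring
      have h3 := intervalIntegral.integral_eq_sub_of_hasDerivAt_of_le h0.le hcont hd
        (hch.intervalIntegrable _ _)
      rw [h3, hFR, hF'R, hF0]
      ring
    have hsplit : ∫ t in (0 : ℝ)..R, (hp N H t - κ) * Real.sin t ^ N =
        gS N R * Real.sin R ^ N - κ * VS N R := by
      have e : (fun t : ℝ => (hp N H t - κ) * Real.sin t ^ N) =
          fun t => hp N H t * Real.sin t ^ N - κ * Real.sin t ^ N := by
        ext t
        ring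
      rw [e, intervalIntegral.integral_sub (hch.intervalIntegrable _ _)
        (hck.intervalIntegrable _ _), hI, intervalIntegral.integral_const_mul, VS]
    simp only [hA1]
    rw [hsplit, hFR]
    ring
  have hAA1 : ∀ ρ, r₀ ≤ ρ → AA N (gS N R) m κ r₀ H ρ = A1 ρ := fun ρ hρ => by
    unfold AA
    rw [if_pos hρ]
  have hAA2 : ∀ ρ, ρ < r₀ → AA N (gS N R) m κ r₀ H ρ = A2 ρ := fun ρ hρ => by
    unfold AA
    rw [if_neg (not_le.2 hρ)]
  -- beyond the equator
  have hdiff : ∀ ρ : ℝ, Fp H ρ = 1 → A1 ρ - A1 R =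
      lam / T * (Real.sin ρ ^ N - Real.sin R ^ N) +
        ∫ t in R..ρ, (κ - hp N H t) * Real.sin t ^ N := by
    intro ρ hone'
    have hc : Continuous fun t : ℝ => (hp N H t - κ) * Real.sin t ^ N :=
      ((continuous_hp0 N hH).sub continuous_const).mul (Real.continuous_sin.pow N)
    have h3 : ∫ t in (0 : ℝ)..ρ, (hp N H t - κ) * Real.sin t ^ N =
        (∫ t in (0 : ℝ)..R, (hp N H t - κ) * Real.sin t ^ N) +
          ∫ t in R..ρ, (hp N H t - κ) * Real.sin t ^ N :=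
      (intervalIntegral.integral_add_adjacent_intervals (hc.intervalIntegrable _ _)
        (hc.intervalIntegrable _ _)).symm
    have h4 : ∫ t in R..ρ, (κ - hp N H t) * Real.sin t ^ N =
        -∫ t in R..ρ, (hp N H t - κ) * Real.sin t ^ N := by
      rw [← intervalIntegral.integral_neg]
      refine intervalIntegral.integral_congr fun t _ => ?_
      ring
    have h5 : gS N R - m = lam / T := by
      rw [hmdef]
      ring
    simp only [hA1]
    rw [h3, h4, hone', hFR, one_pow, mul_one, h5]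
    ring
  have hmid : 0 < lam / T * (1 - Real.sin R ^ N) +
      ∫ t in R..(π / 2), (κ - hp N H t) * Real.sin t ^ N := by
    have h2 := hdiff (π / 2) (hone _ ⟨le_rfl, hM.le⟩)
    have h3 := m2 ⟨le_rfl, hR2.le⟩ ⟨hR2.le, le_rfl⟩ hR2
    rw [Real.sin_pi_div_two, one_pow] at h2
    linarith
  have hfar : ∀ ρ ∈ Icc (π / 2) M, A1 R < A1 ρ := by
    intro ρ hρ
    have h2 := far_pos3 hN h0 hR2 (tan_sq_mem h0 h1).2 P.lam0 P.lam1 P.far1 P.far2 hH hM hM' hout
      hone hmid hρ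
    have h3 := hdiff ρ (hone ρ hρ)
    linarith
  refine ⟨κ, r₀, H, ⟨hH, hHpos, hγ0, hm0, hκ0, hr₀0, by linarith [hr₀.2], hr₀m,
    fun t ht => (hF'pos t ⟨ht.1, ht.2.le.trans hr₀.2⟩).le, fun t ht => ?_, ?_,
    fun ρ hρ hne => ?_⟩, hin, hout, hone⟩
  · rcases le_or_gt t R with h | h
    · exact hge t ⟨ht.1, h⟩
    · have h2 : 1 ≤ Fp H t := by
        rcases le_or_gt t (π / 2) with h5 | h5
        · exact hFout t ⟨h.le, h5⟩
        · exact (hone t ⟨h5.le, ht.2⟩).ge
      have h3 : (1 : ℝ) ≤ Fp H t ^ 2 := one_le_pow₀ h2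
      calc m ≤ gS N R := hmγ
        _ = gS N R * 1 := (mul_one _).symm
        _ ≤ gS N R * Fp H t ^ 2 := by gcongr
  · rw [hAA1 R hr₀.2, hval]
  · rw [← hval]
    rcases lt_or_ge ρ r₀ with h | h
    · rw [hAA2 ρ h]
      calc A1 R ≤ A1 r₀ := m1.antitoneOn ⟨le_rfl, hr₀.2⟩ ⟨hr₀.2, le_rfl⟩ hr₀.2
        _ = A2 r₀ := hA12.symm
        _ < A2 ρ := m3 ⟨hρ.1, h.le⟩ ⟨hr₀0.le, le_rfl⟩ h
    · rw [hAA1 ρ h]
      rcases lt_or_gt_of_ne hne with h2 | h2
      · exact m1 ⟨h, h2.le⟩ ⟨hr₀.2, le_rfl⟩ h2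
      · rcases le_or_gt ρ (π / 2) with h5 | h5
        · exact m2 ⟨le_rfl, hR2.le⟩ ⟨h2.le, h5⟩ h2
        · exact hfar ρ ⟨h5.le, hρ.2⟩

/-- the profile of a ball of radius with `tan² R ≤ qM N`, up to any radius `M < π` -/
theorem exists_prof3 {N : ℕ} (hN : 2 ≤ N) {R : ℝ} (h0 : 0 < R) (h1 : R < π / 2)
    (hq : Real.tan R ^ 2 ≤ qM N) {M : ℝ} (hM : π / 2 < M) (hM' : M < π) :
    ∃ (m κ r₀ : ℝ) (H : ℝ → ℝ), Prof2 N R (gS N R) m κ r₀ M H := by
  obtain ⟨lam, P⟩ := exists_par3 hN h0 h1 hq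
  obtain ⟨κ, r₀, H, h, -⟩ := prof2_of_par3 hN h0 (le_quarter h1 hq) P hM hM'
  exact ⟨_, κ, r₀, H, h⟩

end Pool.Agent.H32.SX
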